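import Pool.Agent.W434.BW.StmC
import Pool.Agent.W434.BW.Basic

/-! Project BW (helper434), BW-NLG: the subclone preserving the clause relation has no
Latin squares. -/

set_option autoImplicit false

namespace Pool.Agent.W591.BW

open Pool.Agent.W434.BW

theorem nlg (hc : S_clo) (hl : S_loop) (ht : S_tau) (hn : S_nlc) : S_nlg := by
  intro A _ E C P u hE hId hBW hC hP hCP hu hM hwnu P0 hP0 Q _ q h hh hs L hL1 hL2 hL3 x y
  obtain ⟨c1, c2, c3, c4, c5, c6, c7, c8⟩ := hc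
  have hGcl : IsCl (GC E C P) := c7 A E C P hE
  have hGid : IdCl (GC E C P) := fun k f hf a => hId k f hf.1 a
  have hGC : Sub (clA (GC E C P)) C := (c2 A _ C).2 fun k f hf x hx => hC k f hf.1 x hx
  have hGP : Sub (clA (GC E C P)) P := (c2 A _ P).2 fun k f hf x hx => hP k f hf.1 x hx
  have hN : Nice (tm3 (GC E C P) u hu) (clA (GC E C P)) := c4 A _ hGid u hu hwnu
  have hNq : Nice (tm3 (GC E C P) u hu) q := nice_img hh hs (nice_sub P0 hP0 hN)
  obtain ⟨Gp, γ, hz, hadd, hγ, hγa, huq⟩ := hl _ _ Q q _ L x hNq hL1 hL2 hL3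
  letI := Gp
  obtain ⟨τ, hτ1, hτ2⟩ := ht _ _ Q q (tm3 (GC E C P) u hu) γ hNq.1 hγ hγa huq
  obtain ⟨v, hv, w, hw, hLW⟩ := hBW
  have hy : y = 0 := by
    refine hn A E C P v w hE hId hv hw hLW hC hP hCP P0 hP0 Q q h
      (fun x => τ.ev (clA (GC E C P)) x) (c1 A _ hGcl 2 τ) hh hs hadd ?_ ?_ y
    · intro c hc' d hd
      exact hτ2 A (clA (GC E C P)) C P hCP hGC hGP
        (fun c hc' y hy => (hM c hc' c hc' y hy).1) c hc' d hd
    · intro a b z hzz
      have h1 : z = τ.ev (subA (clA (GC E C P)) P0 hP0) ![a, b] := by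
        apply Subtype.ext
        rw [hzz, ev_sub, vec2 (fun s : P0 => (s : A))]
      rw [h1, ev_hom hh, vec2 h, hτ1]
  rw [hy]
  exact hz.symm

end Pool.Agent.W591.BW
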